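import Pool.Agent.H622R2.Ckt.Final

/-!
# How many oracles give `E` small circuits?

For `0 < ε < 1` let `O` be the set of the oracles `A` such that every language in `E^A` has
circuits (with gates for `A`) of size less than `2 ^ (ε n)` for infinitely many `n`. The critical
exponent of `O` in the scale of the gauges `(log N) ^ s` is exactly `1 / ε`. The same holds for the
circuits for all large `n`, and there is an exact theorem for all gauges, if `ε` runs through all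
positive numbers.
-/

namespace Pool.Agent.Results.MP_5f97e6_lc.GaugeThreshold

open Pool.Agent.NPC Pool.Agent.H620R2.Gauge Pool.Agent.H622R2.Exp Pool.Agent.H622R2.Ckt
open Filter (atTop)

theorem result :
    (∀ (ε s : ℝ) (f : ℕ → ℝ), 0 < ε → ε < 1 →
      (s < 1 / ε → (∀ᶠ N : ℕ in atTop, ∃ N' ≥ N, f N' ≤ (Real.logb 2 N) ^ s) →
        Null f {A : Oracle | ∀ L, InTime Lin A L →
          ∃ᶠ n : ℕ in atTop, Small A L (2 ^ (ε * n)) n}) ∧
      (1 / ε < s → (¬ ∀ᶠ N : ℕ in atTop, ∃ N' ≥ N, f N' ≤ (Real.logb 2 N) ^ s) →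
        ¬ Null f {A : Oracle | ∀ L, InTime Lin A L →
          ∃ᶠ n : ℕ in atTop, Small A L (2 ^ (ε * n)) n}) ∧
      (s < 1 / ε → (∃ᶠ N : ℕ in atTop, f N ≤ (Real.logb 2 N) ^ s) →
        Null f {A : Oracle | ∀ L, InTime Lin A L →
          ∀ᶠ n : ℕ in atTop, Small A L (2 ^ (ε * n)) n}) ∧
      (1 / ε < s → (¬ ∃ᶠ N : ℕ in atTop, f N ≤ (Real.logb 2 N) ^ s) →
        ¬ Null f {A : Oracle | ∀ L, InTime Lin A L →
          ∀ᶠ n : ℕ in atTop, Small A L (2 ^ (ε * n)) n})) ∧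
    (∀ f : ℕ → ℝ,
      (Null f {A : Oracle | ∀ L, InTime Lin A L → ∀ ε : ℝ, 0 < ε →
          ∃ᶠ n : ℕ in atTop, Small A L (2 ^ (ε * n)) n} ↔
        ∃ s : ℝ, ∀ᶠ N : ℕ in atTop, ∃ N' ≥ N, f N' ≤ (Real.logb 2 N) ^ s) ∧
      (Null f {A : Oracle | ∀ L, InTime Lin A L → ∀ ε : ℝ, 0 < ε →
          ∀ᶠ n : ℕ in atTop, Small A L (2 ^ (ε * n)) n} ↔
        ∃ s : ℝ, ∃ᶠ N : ℕ in atTop, f N ≤ (Real.logb 2 N) ^ s)) :=
  resCkt

end Pool.Agent.Results.MP_5f97e6_lc.GaugeThreshold
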