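import Pool.Agent.H529R2.MF.Hard

/-!
# Exponential circuit lower bounds for E and hitting sets for circuits with one NOT gate

The string `1^m` hits all monotone circuits.  Hitting, with logarithmic seeds, the circuits of
size `m` with a single NOT gate that accept all but a fraction `2^{-m^{1/3}}` of their inputs is
the same as hitting all circuits that accept half of their inputs, and it gives a language in E
that requires circuits of exponential size.
-/

namespace Pool.Agent.Results.MP_5f97e6_lc.OneNotGate

open Pool.Agent.H529R2.MF

/-- (1) Every function computed by a monotone circuit (no NOT gate) on `m` inputs is `1` at `1^m`.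

(2) Some logarithmic-seed generator hits, for all large `m`, all circuits with at most `m` AND and
OR gates and at most one NOT gate which accept at least a fraction `1 - 2^{-m^{1/3}}` of their
inputs if and only if some logarithmic-seed generator hits, for all large `m`, all circuits with
at most `m` AND and OR gates and any number of NOT gates which accept at least half of their
inputs.

(3) In this case some language decidable in time `2^{O(n)}` requires circuits with `2^{Ω(n)}`
AND and OR gates, whatever the number of NOT gates. -/
theorem result :
    (∀ (m s : ℕ) (f : (Fin m → Bool) → Bool), Comp s 0 f → f (fun _ => true) = true) ∧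
    (HitsOneNot (fun m => (2 : ℝ) ^ (-((m : ℝ) ^ ((1 : ℝ) / 3)))) ↔ HitsAll) ∧
    (HitsOneNot (fun m => (2 : ℝ) ^ (-((m : ℝ) ^ ((1 : ℝ) / 3)))) → HardE) := by
  refine ⟨fun m s f hf => ?_, ⟨fun h => hitsAll_of_hitsOneNot h,
    fun h => hitsOneNot_of_hitsAll h⟩, fun h => hardE_of_hitsAll (hitsAll_of_hitsOneNot h)⟩
  obtain ⟨s', -, t, ht, B, hB, hfB⟩ := hf
  exact hB.const_of_monotone (by omega) true f hfB

end Pool.Agent.Results.MP_5f97e6_lc.OneNotGate
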